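import Mathlib
import Pool.Agent.Y938.Win.D

namespace Pool.Agent.Results.MP_fb29e9_nt.EveryWindow

/-- Large values of both signs of the error term of the Gauss circle problem in **every** window of radii,
however short it is compared with the radii themselves: with an absolute constant `c > 0`, for all `H ≥ H₀`
and **all** `R ≥ 0` there are radii `r` and `r'` in `[R, R + H]` with
`N(r) - πr² ≥ √r exp(c (log log H)^{1/4} (log log log H)^{-3/4})` and
`N(r') - πr'² ≤ -√r' exp(c (log log H)^{1/4} (log log log H)^{-3/4})`. -/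
theorem result : ∃ c H₀ : ℝ, 0 < c ∧ ∀ R H : ℝ, 0 ≤ R → H₀ ≤ H →
    (∃ r ∈ Set.Icc R (R + H),
      √r * Real.exp (c * (Real.log (Real.log H)) ^ (1 / 4 : ℝ) * (Real.log (Real.log (Real.log H))) ^ (-(3 / 4) : ℝ)) ≤
        (Nat.card {p : ℤ × ℤ // (p.1 : ℝ) ^ 2 + (p.2 : ℝ) ^ 2 ≤ r ^ 2} : ℝ) - Real.pi * r ^ 2) ∧
    (∃ r ∈ Set.Icc R (R + H),
      (Nat.card {p : ℤ × ℤ // (p.1 : ℝ) ^ 2 + (p.2 : ℝ) ^ 2 ≤ r ^ 2} : ℝ) - Real.pi * r ^ 2 ≤
      -(√r * Real.exp (c * (Real.log (Real.log H)) ^ (1 / 4 : ℝ) * (Real.log (Real.log (Real.log H))) ^ (-(3 / 4) : ℝ)))) := by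
  obtain ⟨C0, hC0, hS⟩ := Pool.Agent.H383.Circ.En_Sand
  obtain ⟨H0, hH0⟩ := Pool.Agent.Y938.Win.window_main Pool.Agent.H383.Circ.ag_Bd Pool.Agent.H383.Circ.ag_zero
    Pool.Agent.H383.Circ.wg_Wt hC0 hS Pool.Agent.W24.Both.LBp_ag
  refine ⟨Pool.Agent.W24.Both.c1, H0, Pool.Agent.W24.Both.c1_pos, ?_⟩
  intro R H hR hH
  obtain ⟨V, hV⟩ : ∃ V : ℝ, V = Real.exp (Pool.Agent.W24.Both.c1 * (Real.log (Real.log H)) ^ (1 / 4 : ℝ) *
      (Real.log (Real.log (Real.log H))) ^ (-(3 / 4) : ℝ)) := ⟨_, rfl⟩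
  have hV0 : 0 < V := by rw [hV]; exact Real.exp_pos _
  constructor
  · obtain ⟨r, hr, h1⟩ := hH0 R H hR hH 1 (Or.inl rfl)
    refine ⟨r, hr, ?_⟩
    rw [← hV] at h1 ⊢
    rw [one_mul] at h1
    unfold Pool.Agent.H383.Gauss.En Pool.Agent.H383.Gauss.F at h1
    have hr0 : 0 < √r := by
      rcases (Real.sqrt_nonneg r).lt_or_eq with h | h
      · exact h
      · exfalso
        rw [← h, div_zero] at h1
        linarith
    rw [le_div_iff₀ hr0] at h1
    linarith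
  · obtain ⟨r, hr, h1⟩ := hH0 R H hR hH (-1) (Or.inr rfl)
    refine ⟨r, hr, ?_⟩
    rw [← hV] at h1 ⊢
    unfold Pool.Agent.H383.Gauss.En Pool.Agent.H383.Gauss.F at h1
    have hr0 : 0 < √r := by
      rcases (Real.sqrt_nonneg r).lt_or_eq with h | h
      · exact h
      · exfalso
        rw [← h, div_zero] at h1
        linarith
    rw [← neg_one_mul, ← neg_one_mul] at *
    rw [mul_div_assoc', le_div_iff₀ hr0] at h1
    linarith

end Pool.Agent.Results.MP_fb29e9_nt.EveryWindow
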