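import Mathlib
import Pool.Agent.Y969.QM3
import Pool.Agent.Y969.QM4

open Filter Topology MeasureTheory

namespace Pool.Agent.Results.MP_fb29e9_nt.ExceptionalSets

open Classical in
/-- The error term `E(x) = (#{p ∈ ℤ² : |p|² ≤ x} - πx)/x^{1/4}` (so `x = R²`) of the Gauss circle problem outside
thin sets; short windows, primes and integer radii included.

(1) The conjectured bound `|E(x)| ≤ x^ε` holds at all real `x` outside very few unit intervals: for every `δ > 0`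
there is `c > 0` such that for all `0 < ε ≤ c` and all windows `[K, K + H)` with `H ≥ K^{1/2+δ}`, the number of
the integers `n` of the window for which `|E(y)| > y^ε` for at least one real `y ∈ [n, n+1)` is at most
`C H^{1 - c ε log(1/ε)}`; this is `O(H^{1-Aε})` for every `A`, once `ε` is small in terms of `A` and `δ`.

(2) Moments of **every** order, up to the contribution of very large values. Let `r(m) = #{p ∈ ℤ² : |p|² = m}`.
There is a law `ν` on `ℝ` such that for all positive integers `a_1, …, a_k` and all integers `b_1, …, b_k ≥ 0`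
there is a law `μ` on `ℝ^k` with all marginals equal to `ν`, with means `0`, covariances
`∫ x_i x_j dμ = (1/(2π²)) ∑_h r(uh) r(vh) (uvh²)^{-3/4}` if `a_i = dv`, `a_j = du`, `(u, v) = 1`, with finite moments
of all orders, and such that for every `p` and `δ > 0` and every small `c > 0` the following holds for every
continuous `f` with `f(x) = O(1 + |x|^p)`, `e_n = (E(a_1 n + b_1), …, E(a_k n + b_k))`: the sum of `f(e_n)` over
the `n` with `max_i |E(a_i n + b_i)| ≤ n^c` of any window `N ≤ n < N + H` with `N^{1/2+δ} ≤ H ≤ N` is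
`H ∫ f dμ + o(H)`, and over the primes `n ≤ N` it is `π(N) ∫ f dμ + o(π(N))`.

(3) The same at integer radii and along quadratic sequences `P_i(n) = an² + b_i n + c_i > 0`, with a rational
number `a > 0`, distinct real `b_1, …, b_k` and real `c_1, …, c_k` (for instance `P_i(n) = (n + β_i)²`): the vectors
`e_n = (E(P_1(n)), …, E(P_k(n)))` have a joint limit law `μ` with a density that extends to an entire function, with
full support and with finite moments of all orders, the sum of `f(e_n)` over the `n` with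
`max_i |E(P_i(n))| ≤ n^c` of any window `m ≤ n < m + N` with `m^{1/2+δ} ≤ N` is `N ∫ f dμ + o(N)`, for every
`f(x) = O(1 + |x|^p)`, and `|E(P_i(n))| ≤ P_i(n)^ε` for all `i`, for all but `C N^{1 - κ ε log(1/ε)}` of the
integers `n` of the window. -/
theorem result (E : ℝ → ℝ)
    (hE : ∀ x : ℝ, E x =
      ((Nat.card {p : ℤ × ℤ // (p.1 : ℝ) ^ 2 + (p.2 : ℝ) ^ 2 ≤ x} : ℝ) - Real.pi * x) / x ^ (1 / 4 : ℝ))
    (r : ℕ → ℕ) (hr : ∀ m : ℕ, r m = Nat.card {p : ℤ × ℤ // p.1 ^ 2 + p.2 ^ 2 = (m : ℤ)}) :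
    (∀ δ : ℝ, 0 < δ → ∃ c : ℝ, 0 < c ∧ ∀ ε : ℝ, 0 < ε → ε ≤ c → ∃ C : ℝ, 0 < C ∧
      ∀ K H : ℕ, 1 ≤ K → (K : ℝ) ^ (1 / 2 + δ) ≤ H →
      (((Finset.Ico K (K + H)).filter (fun n : ℕ =>
          ∃ y : ℝ, (n : ℝ) ≤ y ∧ y < n + 1 ∧ y ^ ε < |E y|)).card : ℝ)
        ≤ C * (H : ℝ) ^ (1 - c * (ε * Real.log (1 / ε)))) ∧
    (∃ ν : ProbabilityMeasure ℝ, ∀ (k : ℕ) (a b : Fin k → ℕ), (∀ i, 0 < a i) →
      ∃ μ : ProbabilityMeasure (Fin k → ℝ),
        (∀ i, (μ : Measure (Fin k → ℝ)).map (fun x => x i) = (ν : Measure ℝ)) ∧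
        (∀ i, ∫ x, x i ∂(μ : Measure (Fin k → ℝ)) = 0) ∧
        (∀ i j, ∀ u v d : ℕ, a i = d * v → a j = d * u → Nat.Coprime u v →
          ∫ x, x i * x j ∂(μ : Measure (Fin k → ℝ)) =
            (∑' h : ℕ, (r (u * h) : ℝ) * r (v * h) / ((u : ℝ) * v * (h : ℝ) ^ 2) ^ (3 / 4 : ℝ)) / (2 * Real.pi ^ 2)) ∧
        ∀ p : ℝ, 0 < p →
          Integrable (fun x : Fin k → ℝ => ‖x‖ ^ p) (μ : Measure (Fin k → ℝ)) ∧
          ∀ δ : ℝ, 0 < δ → ∃ c₀ : ℝ, 0 < c₀ ∧ ∀ c : ℝ, 0 < c → c ≤ c₀ → ∀ f : (Fin k → ℝ) → ℝ, Continuous f →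
            (∃ B : ℝ, ∀ x, |f x| ≤ B * (1 + ‖x‖ ^ p)) → ∀ η : ℝ, 0 < η → ∃ N₀ : ℕ, ∀ N : ℕ, N₀ ≤ N →
            (∀ H : ℕ, H ≤ N → (N : ℝ) ^ (1 / 2 + δ) ≤ H →
              |∑ n ∈ (Finset.Ico N (N + H)).filter (fun n : ℕ => ∀ i, |E ((a i : ℝ) * n + b i)| ≤ (n : ℝ) ^ c),
                  f (fun i => E ((a i : ℝ) * n + b i)) - H * ∫ x, f x ∂(μ : Measure (Fin k → ℝ))| ≤ η * H) ∧
            |∑ n ∈ (Finset.Icc 1 N).filter (fun n : ℕ => n.Prime ∧ ∀ i, |E ((a i : ℝ) * n + b i)| ≤ (n : ℝ) ^ c),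
                f (fun i => E ((a i : ℝ) * n + b i))
              - ((Finset.Icc 1 N).filter Nat.Prime).card * ∫ x, f x ∂(μ : Measure (Fin k → ℝ))|
              ≤ η * ((Finset.Icc 1 N).filter Nat.Prime).card) ∧
    (∀ (k : ℕ) (a : ℚ), 0 < a → ∀ b c : Fin k → ℝ, Function.Injective b →
      (∀ i, ∀ n : ℕ, 0 < (a : ℝ) * (n : ℝ) ^ 2 + b i * n + c i) →
      ∃ (μ : ProbabilityMeasure (Fin k → ℝ)) (g : (Fin k → ℂ) → ℂ),
        Differentiable ℂ g ∧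
        (∀ x : Fin k → ℝ, 0 ≤ (g (fun i => (x i : ℂ))).re ∧ (g (fun i => (x i : ℂ))).im = 0) ∧
        (μ : Measure (Fin k → ℝ)) =
          volume.withDensity (fun x : Fin k → ℝ => ENNReal.ofReal (g (fun i => (x i : ℂ))).re) ∧
        (∀ A : Set (Fin k → ℝ), IsOpen A → A.Nonempty → 0 < (μ : Measure (Fin k → ℝ)) A) ∧
        (∀ p : ℝ, 0 < p → Integrable (fun x : Fin k → ℝ => ‖x‖ ^ p) (μ : Measure (Fin k → ℝ)) ∧
          ∀ δ : ℝ, 0 < δ → ∃ c₀ : ℝ, 0 < c₀ ∧ ∀ c' : ℝ, 0 < c' → c' ≤ c₀ → ∀ f : (Fin k → ℝ) → ℝ, Continuous f →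
          (∃ B : ℝ, ∀ x, |f x| ≤ B * (1 + ‖x‖ ^ p)) → ∀ η : ℝ, 0 < η → ∃ N₀ : ℕ, ∀ N : ℕ, N₀ ≤ N → ∀ m : ℕ,
          (m : ℝ) ^ (1 / 2 + δ) ≤ N →
          |∑ n ∈ (Finset.Ico m (m + N)).filter (fun n : ℕ =>
              ∀ i, |E ((a : ℝ) * (n : ℝ) ^ 2 + b i * n + c i)| ≤ (n : ℝ) ^ c'),
              f (fun i => E ((a : ℝ) * (n : ℝ) ^ 2 + b i * n + c i))
            - N * ∫ x, f x ∂(μ : Measure (Fin k → ℝ))| ≤ η * N) ∧
        (∀ δ : ℝ, 0 < δ → ∃ κ : ℝ, 0 < κ ∧ ∀ ε : ℝ, 0 < ε → ε ≤ κ → ∃ C : ℝ, 0 < C ∧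
          ∀ N m : ℕ, 1 ≤ N → (m : ℝ) ^ (1 / 2 + δ) ≤ N →
          (((Finset.Ico m (m + N)).filter (fun n : ℕ => ∃ i, ((a : ℝ) * (n : ℝ) ^ 2 + b i * n + c i) ^ ε <
              |E ((a : ℝ) * (n : ℝ) ^ 2 + b i * n + c i)|)).card : ℝ) ≤
            C * (N : ℝ) ^ (1 - κ * (ε * Real.log (1 / ε))))) := by
  have hEc : E = Pool.Agent.H425R3.JL.Ec := funext hE
  subst hEc
  exact ⟨Pool.Agent.Y969.SW.exc_circle', Pool.Agent.Y969.SW.circ_trunc r hr,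
    fun k a ha b c hb hP => Pool.Agent.Y969.QM.circ_quad k a ha b c hb hP⟩

end Pool.Agent.Results.MP_fb29e9_nt.ExceptionalSets
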