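import Mathlib
import Pool.Agent.Y938.Pm.F

open MeasureTheory Filter Topology

namespace Pool.Agent.Results.MP_fb29e9_nt.PowerMoments

/-- Moments, with a power saving, of the error term of the Gauss circle problem at integer radii and along
quadratic polynomials. Let `E(x) = (#{p ∈ ℤ² : |p|² ≤ x} - πx)/x^{1/4}`, `r(m) = #{p ∈ ℤ² : |p|² = m}`, and
`δ = 1/320000`.
(1) Mixed moments of total order `k ≤ 5`: for quadratic polynomials `P_i(n) = a_i n² + b_i n + c_i` (`i < k`,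
not necessarily different) with positive integers `a_i` and real `b_i`, `c_i`, positive at `n = 1, 2, …`, there
is `m` with `∑_{n ≤ N} E(P_1(n)) ⋯ E(P_k(n)) = m N + O(N^{1-δ})`.
(2) Integer radii: with `F(n) = #{p ∈ ℤ² : |p| ≤ n}` and `μ` the limit law of `E(n²)`, for `k ≤ 5`
`∑_{n ≤ N} (F(n) - πn²)^k = (∫ x^k dμ)/(1 + k/2) N^{1 + k/2} + O(N^{1 + k/2 - δ})`, and
`∫ x dμ = -(√2/(2π)) ∑_j r(j²) j^{-3/2}`; so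
`∑_{n ≤ N} (F(n) - πn²) = -(√2/(3π)) (∑_j r(j²) j^{-3/2}) N^{3/2} + O(N^{3/2 - δ})`. -/
theorem result (E : ℝ → ℝ)
    (hE : ∀ x : ℝ, E x =
      ((Nat.card {p : ℤ × ℤ // (p.1 : ℝ) ^ 2 + (p.2 : ℝ) ^ 2 ≤ x} : ℝ) - Real.pi * x) / x ^ (1 / 4 : ℝ))
    (r : ℕ → ℕ) (hr : ∀ m : ℕ, r m = Nat.card {p : ℤ × ℤ // p.1 ^ 2 + p.2 ^ 2 = (m : ℤ)}) :
    (∀ (k : ℕ) (a : Fin k → ℕ) (b c : Fin k → ℝ), k ≤ 5 → (∀ i, 0 < a i) →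
      (∀ i, ∀ n : ℕ, 1 ≤ n → 0 < (a i : ℝ) * (n : ℝ) ^ 2 + b i * n + c i) →
      ∃ m C : ℝ, ∀ N : ℕ,
        |∑ n ∈ Finset.Icc 1 N, ∏ i, E ((a i : ℝ) * (n : ℝ) ^ 2 + b i * n + c i) - m * N| ≤
          C * (N : ℝ) ^ (1 - 1 / 320000 : ℝ)) ∧
    ∃ μ : ProbabilityMeasure ℝ,
      (∀ f : ℝ → ℝ, Continuous f → (∃ B : ℝ, ∀ x, |f x| ≤ B) →
        Tendsto (fun N : ℕ => (∑ n ∈ Finset.Icc 1 N, f (E ((n : ℝ) ^ 2))) / N)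
          atTop (𝓝 (∫ x, f x ∂(μ : Measure ℝ)))) ∧
      (∀ k : ℕ, k ≤ 5 → Integrable (fun x : ℝ => x ^ k) (μ : Measure ℝ) ∧
        ∃ C : ℝ, ∀ N : ℕ,
          |∑ n ∈ Finset.Icc 1 N,
              ((Nat.card {p : ℤ × ℤ // (p.1 : ℝ) ^ 2 + (p.2 : ℝ) ^ 2 ≤ (n : ℝ) ^ 2} : ℝ)
                - Real.pi * (n : ℝ) ^ 2) ^ k
            - (∫ x, x ^ k ∂(μ : Measure ℝ)) / (1 + k / 2) * (N : ℝ) ^ (1 + k / 2 : ℝ)| ≤
          C * (N : ℝ) ^ (1 + k / 2 - 1 / 320000 : ℝ)) ∧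
      Summable (fun j : ℕ => (r (j ^ 2) : ℝ) / (j : ℝ) ^ (3 / 2 : ℝ)) ∧
      ∫ x, x ∂(μ : Measure ℝ) =
        -(√2 / (2 * Real.pi)) * ∑' j : ℕ, (r (j ^ 2) : ℝ) / (j : ℝ) ^ (3 / 2 : ℝ) := by
  have hEc : E = Pool.Agent.H425R3.JL.Ec := funext hE
  subst hEc
  have hrr : r = Pool.Agent.Y938.Pm.rr := funext hr
  subst hrr
  constructor
  · intro k a b c hk ha hP
    obtain ⟨m, C, -, h⟩ := Pool.Agent.Y938.Pm.quad_mixed Pool.Agent.H425R3.JL.circ_data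
      Pool.Agent.H425R3.MM.circ_Lv hk a b c ha hP
    exact ⟨m, C, h⟩
  · exact Pool.Agent.Y938.Pm.circ_mom_un

end Pool.Agent.Results.MP_fb29e9_nt.PowerMoments
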