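import Mathlib
import Pool.Agent.Y938.Sep.E

namespace Pool.Agent.Results.MP_fb29e9_nt.WellSpacedRadii

/-- Large values of the error term of the Gauss circle problem at well-spaced real radii. For every `ε > 0`
there is `C` such that for all `X ≥ 1`, `0 ≤ H ≤ X`, `V > 0`: any finite set `T` of real radii `r ∈ [X, X + H]` with
`|N(r) - πr²| ≥ V √r` whose elements have mutual distances at least `V⁻²` has at most
`C X^ε (H V⁻⁶ + X^{1/2} V⁻³)` elements. -/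
theorem result (ε : ℝ) (hε : 0 < ε) : ∃ C : ℝ, ∀ X H V : ℝ, 1 ≤ X → 0 ≤ H → H ≤ X → 0 < V → ∀ T : Finset ℝ,
    (∀ r ∈ T, X ≤ r ∧ r ≤ X + H) →
    (∀ r ∈ T, V * √r ≤ |(Nat.card {p : ℤ × ℤ // (p.1 : ℝ) ^ 2 + (p.2 : ℝ) ^ 2 ≤ r ^ 2} : ℝ) - Real.pi * r ^ 2|) →
    (∀ r ∈ T, ∀ r' ∈ T, r ≠ r' → 1 / V ^ 2 ≤ |r - r'|) →
    (T.card : ℝ) ≤ C * X ^ ε * (H / V ^ 6 + √X / V ^ 3) := by
  obtain ⟨C, hC⟩ := Pool.Agent.Y938.Sep.circ_sep hε
  refine ⟨C, fun X H V hX hH hHX hV T hT hVT hsep => hC X H V hX hH hHX hV T hT ?_ hsep⟩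
  intro t ht
  have hs : 0 < √t := Real.sqrt_pos.mpr (by linarith [(hT t ht).1])
  unfold Pool.Agent.H383.Gauss.En Pool.Agent.H383.Gauss.F
  rw [abs_div, abs_of_pos hs, le_div_iff₀ hs]
  exact hVT t ht

end Pool.Agent.Results.MP_fb29e9_nt.WellSpacedRadii
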